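import Pool.Agent.N590.MS.Fin

set_option autoImplicit false

/-!
# Matrix multiplication when only additions are counted and multiplications are free

Definitions: `Circuit`, `Circuit.poly` in `Pool.Agent.H522R2.Circuit`; `trank`, `omega`, `growth`,
`Superlinear`, `sizeMM`, `ComputesMM`, `ComputesKnown` in `Pool.Agent.W956.KF.Defs`; `mixedSums`,
`properSums`, `ComputesRect`, `sumsMM`, `sumsKnown` in `Pool.Agent.N590.MS.Defs`; `expMat` in
`Pool.Agent.W956.FF.Explicit`.
-/

namespace Pool.Agent.Results.MP_e72dc0_lc.AdditionGates

open Pool.Agent.H522R2 Pool.Agent.W956.KF Pool.Agent.N590.MS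
open Pool.Agent.W956.FF (expMat algebraicIndependent_expMat)

/-- Only `+` gates are counted, all multiplications are free, and also the `+` gates whose result
depends on the first matrix alone or on the second matrix alone are free; `mixedSums` is the number
of the other `+` gates, `sumsMM F m` its least value for the product of two generic `m × m`
matrices. `trank` is the rank of the tensor of matrix multiplication, `omega` its exponent.

(1) Over every field `F` a circuit for the product of an `m × n` and an `n × p` matrix has
`trank (AlgebraicClosure F) m n p ≤ mixedSums C + m p`, and `trank F m n p ≤ mixedSums C + m p` if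
`F` is infinite.
(2) For large `m` this is at least `(2 - ε) m ^ 2` sums for `m × m` matrices, uniformly in `F`.
(3) For every field `F` the growth exponents of `sumsMM F` and of `S_F(MM_m)` are both equal to the
exponent of the rank over `F`, and the lower bound asked for in the question, `S_F(MM_m) ≥ c n ^ α`
for some `α > 1`, is equivalent to such a bound for the number of sums.
(4) The same for the product of a generic matrix with a matrix of constants which are algebraically
independent over a subfield of characteristic 0: all multiplications, all constants of `K` and all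
`+` gates with a constant result are free.
(5) Hence over `ℂ` the question is equivalent to the one for the number of additions for the `m ^ 2`
linear forms `A E_m`, in the `m ^ 2` entries of `A`, with the explicit real matrices
`E_m = expMat m`. -/
theorem result :
    (∀ (F : Type) [Field F] (m n p : ℕ) (C : Circuit F ((Fin m × Fin n) ⊕ (Fin n × Fin p))),
      ComputesRect C → trank (AlgebraicClosure F) m n p ≤ mixedSums C + m * p ∧
        (Infinite F → trank F m n p ≤ mixedSums C + m * p)) ∧
    (∀ ε : ℝ, 0 < ε → ∃ m₀ : ℕ, ∀ (F : Type) [Field F] (m : ℕ)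
      (C : Circuit F ((Fin m × Fin m) ⊕ (Fin m × Fin m))), m₀ ≤ m → ComputesMM C →
        (2 - ε) * (m : ℝ) ^ 2 ≤ mixedSums C) ∧
    (∀ (F : Type) [Field F],
      growth (sumsMM F) = omega F ∧ growth (sizeMM F) = omega F ∧
      (Superlinear (sizeMM F) ↔ ∃ α : ℝ, 1 < α ∧ ∃ c : ℝ, 0 < c ∧
        ∀ m : ℕ, 2 ≤ m → c * (((m : ℝ) ^ 2) ^ α) ≤ sumsMM F m) ∧
      ∀ τ D : ℝ, {m : ℕ | (sumsMM F m : ℝ) ≤ D * (m : ℝ) ^ τ}.Infinite → omega F ≤ τ) ∧
    (∀ (k K : Type) [Field k] [CharZero k] [Field K] [Algebra k K] (m n p : ℕ)
      (B : Matrix (Fin n) (Fin p) K),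
      AlgebraicIndependent k (fun x : Fin n × Fin p => B x.1 x.2) →
      ∀ C : Circuit K (Fin m × Fin n), ComputesKnown C B →
        trank K m n p ≤ properSums C + m * p) ∧
    ((∀ m : ℕ, AlgebraicIndependent ℚ (fun x : Fin m × Fin m => expMat m x.1 x.2)) ∧
      growth (fun m => sumsKnown m (expMat m)) = omega ℂ ∧
      (Superlinear (sizeMM ℂ) ↔ ∃ α : ℝ, 1 < α ∧ ∃ c : ℝ, 0 < c ∧
        ∀ m : ℕ, 2 ≤ m → c * (((m : ℝ) ^ 2) ^ α) ≤ sumsKnown m (expMat m))) := by
  refine ⟨?_, two_all, fun F _ => sums_part F, ?_, algebraicIndependent_expMat, explicit_sums⟩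
  · intro F _ m n p C hC
    exact ⟨trank_le (rank_of_circuit_closure C hC), fun _ => trank_le (rank_of_circuit C hC)⟩
  · intro k K _ _ _ _ m n p B hB C hC
    exact trank_le (rank_of_known B hB C hC)

end Pool.Agent.Results.MP_e72dc0_lc.AdditionGates
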