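import Pool.Agent.N452.ON.Final

set_option autoImplicit false

/-!
# One number which depends on the product of two matrices

Definitions: `hessM`, `quad`, `DeterminesNumber`, `DeterminesNumbers`, `oneCost` in
`Pool.Agent.N452.ON.Defs`; `Lin`, `Lin.val` in `Pool.Agent.W966.Mm.Tree`; `Ent`, `entries` in
`Pool.Agent.W966.Mm.RankErr`; `ETree`, `ETree.Can` in `Pool.Agent.W944.En.Tree`; `trank`,
`growth`, `omega`, `Superlinear`, `sizeMM` in `Pool.Agent.W956.KF.Defs`.
-/

namespace Pool.Agent.Results.MP_e72dc0_lc.OneNumber

open Pool.Agent.W966.Mm Pool.Agent.W944.En Pool.Agent.W956.KF Pool.Agent.N452.ON MvPolynomial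

/-- A probabilistic algorithm `t : ETree ℂ n s` gets two complex `n × n` matrices `A, B`, makes
field operations, tests for equality and random choices and outputs `s` numbers; only
multiplications and divisions are counted. `DeterminesNumber t g L` says that its output determines
the single number `g (A B)`, where `g` is a polynomial in the entries of a matrix: there is a
function `dec`, which need not be computable and whose values are countable sets, such that for all
`A, B` outside the zero set of a nonzero polynomial every possible output `o` (of a run with at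
most `L` multiplications and divisions) satisfies `g (A B) ∈ dec o`, and there is such an output.
Let `R n = trank ℂ n n n` be the rank of the tensor of `n × n` matrix multiplication over `ℂ`.

(1) Let the output of `t`, which consists of `s` numbers, determine the single number `g (A B)`, and
let `ρ` be the rank of the Hessian matrix of `g` (of size `n ^ 2 × n ^ 2`) at some point. If
`s + ε n ^ 2 ≤ 2 ρ`, `ε > 0`, then `R n ≤ 6 (64 / ε ^ 2 + 1) ^ 3 L`. So if the Hessian matrix is
invertible at some point, then `(2 - ε) n ^ 2` numbers which determine the one number `g (A B)` cost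
as much as the product `A B`, up to a constant factor.
(2) The same holds if the output determines the values at `A B` of `K` algebraically independent
polynomials and `s + ε n ^ 2 ≤ 2 K`.
(3) The value at `A B` of every quadratic form in `n ^ 2` variables can be computed with
`n ^ 2 + R n` multiplications.
(4) Let `q n` be quadratic forms in the entries of an `n × n` matrix, `r n` the rank of `q n`, and
let `1 ≤ S n`, `S n + ε n ^ 2 ≤ 2 r n`. Then the least number of multiplications and divisions with
which at most `S n` numbers can be computed that determine the single number `q n (A B)` is at most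
`2 R n` and at least `R n / (6 (64 / ε ^ 2 + 1) ^ 3)`. So it has the exponent of matrix
multiplication, and the lower bound asked for in the question, over `ℂ`, is equivalent to the same
kind of bound for it. This holds for `S n = 1`, for instance for the sum of the squares of the
entries of `A B` and for the trace of `(A B) ^ 2`.
(5) The bound for the number of outputs is sharp: `2 n ^ 2` numbers determine `A B` without any
multiplication or division. -/
theorem result :
    (∀ (n s L : ℕ) (ε : ℝ) (t : ETree ℂ n s) (g : MvPolynomial (Fin n × Fin n) ℂ)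
      (C₀ : Matrix (Fin n) (Fin n) ℂ), 0 < ε → DeterminesNumber t g L →
      (s : ℝ) + ε * (n : ℝ) ^ 2 ≤ 2 * ((hessM g C₀).rank : ℝ) →
      (trank ℂ n n n : ℝ) ≤ 6 * (64 / ε ^ 2 + 1) ^ 3 * L) ∧
    (∀ (n s K L : ℕ) (ε : ℝ) (t : ETree ℂ n s) (g : Fin K → MvPolynomial (Fin n × Fin n) ℂ),
      0 < ε → AlgebraicIndependent ℂ g → DeterminesNumbers t g L →
      (s : ℝ) + ε * (n : ℝ) ^ 2 ≤ 2 * (K : ℝ) →
      (trank ℂ n n n : ℝ) ≤ 6 * (64 / ε ^ 2 + 1) ^ 3 * L) ∧
    (∀ (n : ℕ) (c : Matrix (Fin n × Fin n) (Fin n × Fin n) ℂ), ∃ t : ETree ℂ n 1,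
      ∀ (A B : Matrix (Fin n) (Fin n) ℂ) (E : (Fin 1 → ℂ) → Prop),
        t.Can A B E 0 0 (n ^ 2 + trank ℂ n n n) 0 ↔
          E fun _ => eval (fun p => (A * B) p.1 p.2) (quad c)) ∧
    (∀ (ε : ℝ) (S : ℕ → ℕ) (c : (n : ℕ) → Matrix (Fin n × Fin n) (Fin n × Fin n) ℂ),
      0 < ε → (∀ n, 1 ≤ S n) →
      (∀ n, 1 ≤ n → (S n : ℝ) + ε * (n : ℝ) ^ 2 ≤ 2 * ((c n + (c n).transpose).rank : ℝ)) →
      (∀ n, oneCost (S n) (quad (c n)) ≤ 2 * trank ℂ n n n ∧
        (trank ℂ n n n : ℝ) ≤ 6 * (64 / ε ^ 2 + 1) ^ 3 * oneCost (S n) (quad (c n))) ∧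
      growth (fun n => oneCost (S n) (quad (c n))) = omega ℂ ∧
      (Superlinear (sizeMM ℂ) ↔ Superlinear fun n => oneCost (S n) (quad (c n)))) ∧
    (∀ (n : ℕ) (g : MvPolynomial (Fin n × Fin n) ℂ), ∃ t : ETree ℂ n (2 * n ^ 2),
      DeterminesNumber t g 0) := by
  refine ⟨fun n s L ε t g C₀ hε H hd => one_lower hε H C₀ hd,
    fun n s K L ε t g hε hg H hd => several hε hg H hd, one_upper,
    fun ε S c hε hS hS2 => family_part hε S c hS hS2, input_suffices⟩

end Pool.Agent.Results.MP_e72dc0_lc.OneNumber
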