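import Mathlib
import Pool.Agent.N726.CC.Asm6
import Pool.Agent.N726.CC.Fin5
import Pool.Agent.N726.CC.Sli
import Pool.Agent.N726.CC.Avo
import Pool.Agent.N726.CC.Asm8
import Pool.Agent.N726.CC.Sll
import Pool.Agent.N726.CC.Avl
import Pool.Agent.N726.BG.Qrc
import Pool.Agent.N726.BG.Sl2
import Pool.Agent.N726.BG.Sln

/-!
# Quasirandom groups of automorphisms and matrix multiplication by coherent configurations

Over the complex numbers circuits of size `C n ^ (τ / 2)`, `n = m ^ 2`, for `m × m` matrix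
multiplication exist for all `τ > ω`, and almost linear circuits mean `ω = 2`. One of the two known
ways towards such circuits is the group-theoretic approach of Cohn and Umans, and its extension from
group algebras to the adjacency algebras of coherent configurations (Cohn and Umans, Fast matrix
multiplication using coherent configurations, SODA 2013). It looks for classes `R i a b`, `S i b e`,
`T i e a` of a configuration which realize the matrix multiplications of the formats
`(l i, m i, n i)`: three classes `R i a b`, `S j b' e`, `T k e' a'` contain a triangle only if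
`i = j = k` and `a = a'`, `b = b'`, `e = e'`. If every pair in these classes is in one triangle
(structure constants one) then `∑ (l i * m i * n i) ^ (ω / 3) ≤ ∑ d j ^ ω` with the degrees `d j` of
the adjacency algebra, and this also holds for the exponent of the support rank if there are more
triangles. The configuration can show `ω < τ` only if this fails for `ω = τ`.

The theorem holds for all coherent configurations on a finite set `Ω` and all nontrivial finite
groups `H` which act on `Ω` and preserve the classes. Suppose that all complex representations of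
`H` of dimension less than `D` are trivial (Gowers: `H` is quasirandom). If the structure constants
of the classes are at most `L`, and each triple `R i a b`, `S i b e`, `T i e a` contains at least `s i`
triangles whose three pairs are fixed only by the identity of `H`, then
`(D / (4 * L ^ 5)) ^ (1 / 3) * ∑ (l i * m i * n i) ^ (2 / 3) * s i ≤ |Ω| ^ 2`,
and if no class is larger than `Q * s i` (so `Q = L = 1` if `H` acts semiregularly on the classes
which are used, these are classes of the largest size, and the structure constants are one) then,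
for all real `ω ≥ 2`,
`((D / (4 * L ^ 5)) ^ (1 / 3) / Q) ^ (ω / 2) ∑ (l i * m i * n i) ^ (ω / 3) ≤ k ^ (ω / 2 - 1) ∑ d j ^ ω`,
`k` being the number of the `d j`. Hence (`dimension_le`) a configuration which shows `ω < τ` with
structure constants one has `D ≤ 4 (k ^ (1 - 2 / τ) Q) ^ 3` for all nontrivial groups of
automorphisms.

Special cases in this file: the group algebras of all finite groups `G` with a nontrivial
quasirandom subgroup `H`, normal or not, of any index (`groups`; Blasiak, Cohn, Grochow, Pratt and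
Umans treat `H = G`); images of `SL_m(q)` are quasirandom with `D = q ^ (m - 1) / 2`
(`special_linear`).

Main steps of the proof.
* `N726.BG.Mix`: the mixing inequality of Babai, Nikolov and Pyber in quasirandom groups.
* `N726.CC.Sli`, `N726.CC.Sll`: for points `p, q, r` the sets of the `h` such that `(p, h q)`, `(q, h r)`, `(r, h p)`
  are in triangles of the classes satisfy `|X| |Y| |Z| D ≤ 4 L ^ 2 |H| ^ 3`, because `x y z = 1` gives
  a triangle.
* `N726.CC.Avo`, `N726.CC.Avl`: averaging over all triangles.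
* `N726.BG.Sl2`, `N726.BG.Sln`: the representations of `SL_n(q)` (Frobenius, Landazuri and Seitz).

Idea and assembly: helper726. Parts of the formal proof: helper475 (`N726.CC.Sli`), helper67
(`N726.CC.Sll`), helper364 (`N726.CC.Avo`, cosets), helper667 (`N726.CC.Avl`), helper478
(`N726.CC.Adk`), helper157 (mixing), helper8 (blocks), helper99
(averaging), helper482 and helper427 (representations of `SL_n(q)`), helper769 (classes and matrix
blocks), helper82 (power means).
-/

namespace Pool.Agent.Results.MP_e72dc0_lc.QuasirandomAutomorphisms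

open Finset

/-- `c p q` is the colour of the pair `(p, q)`. The colour classes form a coherent configuration:
the diagonal is a union of classes, the transposes of the classes are classes, and the number of
the points `r` such that `(p, r)` has colour `x` and `(r, q)` has colour `y` depends only on `x`,
`y` and the colour of `(p, q)`. -/
structure Coherent {Ω κ : Type} (c : Ω → Ω → κ) : Prop where
  diag : ∀ p q r, c p p = c q r → q = r
  symm : ∀ p q p' q', c p q = c p' q' → c q p = c q' p'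
  count : ∀ p q p' q', c p q = c p' q' → ∀ x y,
    Nat.card {r // c p r = x ∧ c r q = y} = Nat.card {r // c p' r = x ∧ c r q' = y}

theorem Coherent.convert {Ω κ : Type} {c : Ω → Ω → κ} (h : Coherent c) : N726.CC.Coherent c :=
  ⟨h.diag, h.symm, h.count⟩

/-- The adjacency algebra: the complex matrices which are constant on the classes. -/
def adjacency {Ω κ : Type} [Fintype Ω] [DecidableEq Ω] {c : Ω → Ω → κ} (hc : Coherent c) :
    Subalgebra ℂ (Matrix Ω Ω ℂ) where
  carrier := {M | ∀ p q p' q', c p q = c p' q' → M p q = M p' q'}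
  mul_mem' := (N726.CC.adj hc.convert).mul_mem'
  add_mem' := (N726.CC.adj hc.convert).add_mem'
  algebraMap_mem' := (N726.CC.adj hc.convert).algebraMap_mem'

/-- The `d j` are the degrees: the adjacency algebra is isomorphic to the product of the algebras
of `d j × d j` matrices, and all `d j` are positive. -/
def Degrees {Ω κ : Type} [Fintype Ω] [DecidableEq Ω] {c : Ω → Ω → κ} (hc : Coherent c) {k : ℕ}
    (d : Fin k → ℕ) : Prop :=
  (∀ j, 0 < d j) ∧ Nonempty (adjacency hc ≃ₐ[ℂ] ∀ j, Matrix (Fin (d j)) (Fin (d j)) ℂ)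

/-- The size of the class of the colour `x`. -/
noncomputable def size {Ω κ : Type} (c : Ω → Ω → κ) (x : κ) : ℕ :=
  Nat.card {e : Ω × Ω // c e.1 e.2 = x}

/-- The classes of the colours `R i a b`, `S i b e`, `T i e a` simultaneously realize the matrix
multiplications of the formats `(l i, m i, n i)`, with structure constants one: there are triangles
in `R i a b`, `S j b' e`, `T k e' a'` only if `i = j = k` and `a = a'`, `b = b'`, `e = e'`, and then
every pair in one of the three classes is in exactly one triangle. -/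
structure RealizesExactly {Ω κ : Type} (c : Ω → Ω → κ) {I : Type} (l m n : I → ℕ)
    (R : ∀ i, Fin (l i) → Fin (m i) → κ) (S : ∀ i, Fin (m i) → Fin (n i) → κ)
    (T : ∀ i, Fin (n i) → Fin (l i) → κ) : Prop where
  only : ∀ i j k (a : Fin (l i)) (b : Fin (m i)) (b' : Fin (m j)) (e : Fin (n j))
    (e' : Fin (n k)) (a' : Fin (l k)) (p q r : Ω), c p q = R i a b → c q r = S j b' e →
    c r p = T k e' a' → i = j ∧ j = k ∧ (a : ℕ) = a' ∧ (b : ℕ) = b' ∧ (e : ℕ) = e'
  one : ∀ i a b e,
    (∀ p q, c p q = R i a b → ∃! r, c q r = S i b e ∧ c r p = T i e a) ∧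
    (∀ q r, c q r = S i b e → ∃! p, c r p = T i e a ∧ c p q = R i a b) ∧
    (∀ r p, c r p = T i e a → ∃! q, c p q = R i a b ∧ c q r = S i b e)

/-- The pairs of colour `x` which are fixed only by the identity of `H`. -/
def freePairs (H : Type) [Group H] {Ω κ : Type} [MulAction H Ω] (c : Ω → Ω → κ) (x : κ) :
    Set (Ω × Ω) := {e | c e.1 e.2 = x ∧ ∀ h : H, h • e.1 = e.1 → h • e.2 = e.2 → h = 1}

/-- All complex representations of `H` of dimension less than `D` are trivial. -/
def Quasirandom (H : Type) [Group H] (D : ℕ) : Prop :=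
  ∀ n < D, ∀ ρ : H →* Matrix (Fin n) (Fin n) ℂ, ρ = 1

theorem RealizesExactly.convert {Ω κ : Type} {c : Ω → Ω → κ} {I : Type} {l m n : I → ℕ}
    {R : ∀ i, Fin (l i) → Fin (m i) → κ} {S : ∀ i, Fin (m i) → Fin (n i) → κ}
    {T : ∀ i, Fin (n i) → Fin (l i) → κ} (h : RealizesExactly c l m n R S T) :
    N726.CC.RealizesC c l m n R S T :=
  ⟨h.only, fun i a b e => (h.one i a b e).1, fun i a b e => (h.one i a b e).2.1,
    fun i a b e => (h.one i a b e).2.2⟩

theorem free_eq (H : Type) [Group H] {Ω κ : Type} [MulAction H Ω] (c : Ω → Ω → κ) (x : κ) :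
    freePairs H c x = N726.CC.freePairs H c x := by
  ext e
  refine and_congr_right fun _ => forall_congr' fun h => ?_
  constructor
  · intro h1 h2
    exact h1 (congrArg Prod.fst h2) (congrArg Prod.snd h2)
  · intro h1 h2 h3
    exact h1 (Prod.ext h2 h3)

/-- The classes of the colours `R i a b`, `S i b e`, `T i e a` simultaneously realize the matrix
multiplications of the formats `(l i, m i, n i)`: there are triangles in `R i a b`, `S j b' e`,
`T k e' a'` only if `i = j = k` and `a = a'`, `b = b'`, `e = e'`. -/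
def Realizes {Ω κ : Type} (c : Ω → Ω → κ) {I : Type} (l m n : I → ℕ)
    (R : ∀ i, Fin (l i) → Fin (m i) → κ) (S : ∀ i, Fin (m i) → Fin (n i) → κ)
    (T : ∀ i, Fin (n i) → Fin (l i) → κ) : Prop :=
  ∀ i j k (a : Fin (l i)) (b : Fin (m i)) (b' : Fin (m j)) (e : Fin (n j))
    (e' : Fin (n k)) (a' : Fin (l k)) (p q r : Ω), c p q = R i a b → c q r = S j b' e →
    c r p = T k e' a' → i = j ∧ j = k ∧ (a : ℕ) = a' ∧ (b : ℕ) = b' ∧ (e : ℕ) = e'

/-- The structure constants are at most `L`: every pair in one of the classes `R i a b`, `S i b e`,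
`T i e a` is in at most `L` triangles of these three classes. -/
def StructureConstantsLe {Ω κ : Type} (c : Ω → Ω → κ) {I : Type} {l m n : I → ℕ}
    (R : ∀ i, Fin (l i) → Fin (m i) → κ) (S : ∀ i, Fin (m i) → Fin (n i) → κ)
    (T : ∀ i, Fin (n i) → Fin (l i) → κ) (L : ℕ) : Prop :=
  ∀ i a b e, (∀ p q, c p q = R i a b → Nat.card {r // c q r = S i b e ∧ c r p = T i e a} ≤ L) ∧
    (∀ q r, c q r = S i b e → Nat.card {p // c r p = T i e a ∧ c p q = R i a b} ≤ L) ∧
    (∀ r p, c r p = T i e a → Nat.card {q // c p q = R i a b ∧ c q r = S i b e} ≤ L)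

/-- The triangles of the colours `x`, `y`, `z` such that each of their three pairs is fixed only by
the identity of `H`. -/
def freeTriangles (H : Type) [Group H] {Ω κ : Type} [MulAction H Ω] (c : Ω → Ω → κ)
    (x y z : κ) : Set (Ω × Ω × Ω) :=
  {t | (t.1, t.2.1) ∈ freePairs H c x ∧ (t.2.1, t.2.2) ∈ freePairs H c y ∧
    (t.2.2, t.1) ∈ freePairs H c z}

theorem free_eq' (H : Type) [Group H] {Ω κ : Type} [MulAction H Ω] (c : Ω → Ω → κ)
    (x y z : κ) : freeTriangles H c x y z = N726.CC.trs (N726.CC.freePairs H c x)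
      (N726.CC.freePairs H c y) (N726.CC.freePairs H c z) := by
  rw [← free_eq, ← free_eq, ← free_eq]
  rfl

theorem result (Ω κ : Type) [Fintype Ω] [DecidableEq Ω] [Nonempty Ω] (c : Ω → Ω → κ)
    (hc : Coherent c) (H : Type) [Group H] [Finite H] [Nontrivial H] [MulAction H Ω]
    (hH : ∀ (h : H) (p q : Ω), c (h • p) (h • q) = c p q) (D : ℕ) (hD : Quasirandom H D)
    (I : Type) [Fintype I] (l m n : I → ℕ)
    (R : ∀ i, Fin (l i) → Fin (m i) → κ) (S : ∀ i, Fin (m i) → Fin (n i) → κ)
    (T : ∀ i, Fin (n i) → Fin (l i) → κ) (h : Realizes c l m n R S T)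
    (L : ℕ) (hL : 1 ≤ L) (hSC : StructureConstantsLe c R S T L) (s : I → ℕ)
    (hs : ∀ i a b e, s i ≤ Nat.card (freeTriangles H c (R i a b) (S i b e) (T i e a))) :
    ((D : ℝ) / (4 * (L : ℝ) ^ 5)) ^ ((1 : ℝ) / 3) *
        ∑ i, ((l i * m i * n i : ℕ) : ℝ) ^ ((2 : ℝ) / 3) * s i ≤ (Fintype.card Ω : ℝ) ^ 2 ∧
    ∀ Q : ℝ, 0 < Q → (∀ i x, (size c x : ℝ) ≤ Q * s i) →
      ∀ (k : ℕ) (d : Fin k → ℕ), Degrees hc d → ∀ ω : ℝ, 2 ≤ ω →
        (((D : ℝ) / (4 * (L : ℝ) ^ 5)) ^ ((1 : ℝ) / 3) / Q) ^ (ω / 2) *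
          ∑ i, ((l i * m i * n i : ℕ) : ℝ) ^ (ω / 3) ≤
            (k : ℝ) ^ (ω / 2 - 1) * ∑ j, (d j : ℝ) ^ ω := by
  have hs' : ∀ i a b e, s i ≤ Nat.card (N726.CC.trs (N726.CC.freePairs H c (R i a b))
      (N726.CC.freePairs H c (S i b e)) (N726.CC.freePairs H c (T i e a))) := by
    intro i a b e
    rw [← free_eq']
    exact hs i a b e
  have h' : N726.CC.RealizesW c l m n R S T (fun _ => 0) (fun _ => 0) (fun _ => 0) L :=
    ⟨fun _ _ _ _ => rfl, fun i j k a b b' e e' a' p q r h1 h2 h3 =>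
      Or.inr (h i j k a b b' e e' a' p q r h1 h2 h3), fun i a b e => (hSC i a b e).1,
      fun i a b e => (hSC i a b e).2.1, fun i a b e => (hSC i a b e).2.2⟩
  refine ⟨N726.CC.quasiL_weighted N726.CC.sll N726.CC.avl hH hD hL h' s hs', ?_⟩
  intro Q hQ hQs k d hd ω hω
  rw [mul_comm]
  exact N726.CC.quasiL_degrees N726.CC.sll N726.CC.avl N726.CC.adk hc.convert hH hD hL h' s hs'
    hQ hQs k d hd.2 hω

/-- The case of structure constants one, with the numbers of the free pairs. -/
theorem structure_constants_one (Ω κ : Type) [Fintype Ω] [DecidableEq Ω] [Nonempty Ω] (c : Ω → Ω → κ)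
    (hc : Coherent c) (H : Type) [Group H] [Finite H] [Nontrivial H] [MulAction H Ω]
    (hH : ∀ (h : H) (p q : Ω), c (h • p) (h • q) = c p q) (D : ℕ) (hD : Quasirandom H D)
    (I : Type) [Fintype I] (l m n : I → ℕ)
    (R : ∀ i, Fin (l i) → Fin (m i) → κ) (S : ∀ i, Fin (m i) → Fin (n i) → κ)
    (T : ∀ i, Fin (n i) → Fin (l i) → κ) (h : RealizesExactly c l m n R S T) (s : I → ℕ)
    (hs : ∀ i a b, s i ≤ Nat.card (freePairs H c (R i a b))) :
    ((D : ℝ) / 4) ^ ((1 : ℝ) / 3) * ∑ i, ((l i * m i * n i : ℕ) : ℝ) ^ ((2 : ℝ) / 3) * s i ≤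
      (Fintype.card Ω : ℝ) ^ 2 ∧
    ∀ Q : ℝ, 1 ≤ Q → (∀ i x, (size c x : ℝ) ≤ Q * s i) →
      ∀ (k : ℕ) (d : Fin k → ℕ), Degrees hc d → ∀ ω : ℝ, 2 ≤ ω →
        (((D : ℝ) / 4) ^ ((1 : ℝ) / 3) / Q) ^ (ω / 2) *
          ∑ i, ((l i * m i * n i : ℕ) : ℝ) ^ (ω / 3) ≤
            (k : ℝ) ^ (ω / 2 - 1) * ∑ j, (d j : ℝ) ^ ω := by
  have hs' : ∀ i a b, s i ≤ Nat.card (N726.CC.freePairs H c (R i a b)) := by
    intro i a b
    rw [← free_eq]
    exact hs i a b
  refine ⟨N726.CC.quasi_weighted N726.CC.sli N726.CC.avo hH hD h.convert s hs', ?_⟩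
  intro Q hQ hQs k d hd ω hω
  rw [mul_comm]
  exact N726.CC.quasi_degrees N726.CC.sli N726.CC.avo N726.CC.adk hc.convert hH hD h.convert s hs'
    hQ hQs k d hd.2 hω

/-- A configuration which shows `ω < τ` has no very quasirandom groups of automorphisms. -/
theorem dimension_le {Ω κ : Type} [Fintype Ω] [DecidableEq Ω] [Nonempty Ω] {c : Ω → Ω → κ}
    (hc : Coherent c) {H : Type} [Group H] [Finite H] [Nontrivial H] [MulAction H Ω]
    (hH : ∀ (h : H) (p q : Ω), c (h • p) (h • q) = c p q) (D : ℕ) (hD : Quasirandom H D)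
    (I : Type) [Fintype I] (l m n : I → ℕ)
    (R : ∀ i, Fin (l i) → Fin (m i) → κ) (S : ∀ i, Fin (m i) → Fin (n i) → κ)
    (T : ∀ i, Fin (n i) → Fin (l i) → κ) (h : RealizesExactly c l m n R S T) (s : I → ℕ)
    (hs : ∀ i a b, s i ≤ Nat.card (freePairs H c (R i a b))) (Q : ℝ) (hQ : 1 ≤ Q)
    (hQs : ∀ i x, (size c x : ℝ) ≤ Q * s i) (k : ℕ) (d : Fin k → ℕ) (hk : 0 < k)
    (hd : Degrees hc d) (τ : ℝ) (hτ : 2 ≤ τ)
    (hsh : ∑ j, (d j : ℝ) ^ τ ≤ ∑ i, ((l i * m i * n i : ℕ) : ℝ) ^ (τ / 3)) :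
    (D : ℝ) ≤ 4 * ((k : ℝ) ^ (1 - 2 / τ) * Q) ^ 3 := by
  have h1 := (structure_constants_one Ω κ c hc H hH D hD I l m n R S T h s hs).2 Q hQ hQs k d hd τ hτ
  have hpos : 0 < ∑ j, (d j : ℝ) ^ τ :=
    Finset.sum_pos (fun j _ => Real.rpow_pos_of_pos (by exact_mod_cast hd.1 j) _)
      ⟨⟨0, hk⟩, Finset.mem_univ _⟩
  have hk0 : (0 : ℝ) ≤ k := Nat.cast_nonneg _
  have hQ0 : (0 : ℝ) < Q := by linarith
  have hτ0 : (0 : ℝ) < τ := by linarith
  have hD0 : (0 : ℝ) ≤ (D : ℝ) / 4 := by positivity
  set E : ℝ := ((D : ℝ) / 4) ^ ((1 : ℝ) / 3) / Q with hE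
  have hE0 : 0 ≤ E := by positivity
  have h2 : E ^ (τ / 2) ≤ (k : ℝ) ^ (τ / 2 - 1) := by
    have h3 : E ^ (τ / 2) * ∑ j, (d j : ℝ) ^ τ ≤ (k : ℝ) ^ (τ / 2 - 1) * ∑ j, (d j : ℝ) ^ τ :=
      (mul_le_mul_of_nonneg_left hsh (Real.rpow_nonneg hE0 _)).trans h1
    exact le_of_mul_le_mul_right h3 hpos
  have h3 : (E ^ (τ / 2)) ^ (2 / τ) ≤ ((k : ℝ) ^ (τ / 2 - 1)) ^ (2 / τ) :=
    Real.rpow_le_rpow (Real.rpow_nonneg hE0 _) h2 (by positivity)
  rw [← Real.rpow_mul hE0, ← Real.rpow_mul hk0] at h3
  have e1 : τ / 2 * (2 / τ) = 1 := by field_simp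
  have e2 : (τ / 2 - 1) * (2 / τ) = 1 - 2 / τ := by field_simp
  rw [e1, e2, Real.rpow_one, hE, div_le_iff₀ hQ0] at h3
  have h4 : (((D : ℝ) / 4) ^ ((1 : ℝ) / 3)) ^ 3 ≤ ((k : ℝ) ^ (1 - 2 / τ) * Q) ^ 3 :=
    pow_le_pow_left₀ (by positivity) h3 3
  have h5 : (((D : ℝ) / 4) ^ ((1 : ℝ) / 3)) ^ 3 = (D : ℝ) / 4 := by
    rw [← Real.rpow_natCast, ← Real.rpow_mul hD0]
    norm_num
  rw [h5] at h4
  linarith

/-- The degrees exist: the adjacency algebra is a product of matrix algebras. -/
theorem exists_degrees (Ω κ : Type) [Fintype Ω] [DecidableEq Ω] (c : Ω → Ω → κ)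
    (hc : Coherent c) : ∃ (k : ℕ) (d : Fin k → ℕ), Degrees hc d := by
  obtain ⟨k, d, hd, he⟩ := N726.CC.dek Ω κ c hc.convert
  exact ⟨k, d, hd, he⟩

/-- The case of the group algebra of a finite group `G` with a quasirandom subgroup `H`, and of
families of subsets with the simultaneous triple product property; the `d j` are the dimensions of
the irreducible representations of `G`. -/
theorem groups (G : Type) [Group G] [Finite G] (H : Subgroup G) (hH : H ≠ ⊥) (D : ℕ)
    (hD : Quasirandom H D) (I : Type) [Fintype I] (A B C : I → Finset G)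
    (hS : ∀ i j k, ∀ a ∈ A i, ∀ a' ∈ A j, ∀ b ∈ B j, ∀ b' ∈ B k, ∀ c ∈ C k, ∀ c' ∈ C i,
      a * a'⁻¹ * (b * b'⁻¹) * (c * c'⁻¹) = 1 → i = j ∧ j = k ∧ a = a' ∧ b = b' ∧ c = c')
    (n : ℕ) (d : Fin n → ℕ)
    (hd : Nonempty (MonoidAlgebra ℂ G ≃ₐ[ℂ] ∀ j, Matrix (Fin (d j)) (Fin (d j)) ℂ))
    (ω : ℝ) (hω : 2 ≤ ω) :
    ((D : ℝ) / 4) ^ (ω / 6) *
        ∑ i, (((A i).card * (B i).card * (C i).card : ℕ) : ℝ) ^ (ω / 3) ≤
      (Nat.card (ConjClasses G) : ℝ) ^ (ω / 2 - 1) * ∑ j, (d j : ℝ) ^ ω := by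
  rw [mul_comm]
  exact N726.BG.qr_classes H hH hD hS hd hω

/-- Images of special linear groups are quasirandom. -/
theorem special_linear (K : Type) [Field K] [Fintype K] (m : ℕ) (hm : 2 ≤ m)
    (H : Type) [Group H] (f : Matrix.SpecialLinearGroup (Fin m) K →* H)
    (hf : Function.Surjective f) (D : ℕ) (hD : 2 * D ≤ Fintype.card K ^ (m - 1)) :
    Quasirandom H D := by
  classical
  have hq : 1 < Fintype.card K := Fintype.one_lt_card
  intro k hk ρ
  have key : ρ.comp f = 1 := by
    have h1 : 1 ≤ Fintype.card K ^ (m - 1) := Nat.one_le_pow _ _ (by omega)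
    rcases Nat.lt_or_ge m 3 with h3 | h3
    · have h4 : m = 2 := by omega
      subst h4
      refine N726.BG.sl2 K k ?_ (ρ.comp f)
      simp only [Nat.add_one_sub_one, pow_one] at hD
      omega
    · refine N726.BG.sln K m k h3 ?_ (ρ.comp f)
      omega
  ext1 x
  obtain ⟨y, rfl⟩ := hf x
  exact DFunLike.congr_fun key y

end Pool.Agent.Results.MP_e72dc0_lc.QuasirandomAutomorphisms
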