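import Mathlib
import Pool.Agent.N580.SY.Cir
import Pool.Agent.N45.SY_JET
import Pool.Agent.N55.SY_EQV
import Pool.Agent.N222.SY_MAT

/-!
# Symmetric arithmetic circuits for the multiplication of matrices

A circuit is symmetric under a group of permutations of its variables if each of these permutations
extends to an automorphism of the circuit (Dawar and Wilsenach, who prove exponential lower bounds
for symmetric circuits for the permanent).  Here the variables are the entries of an `n₁ × n₂`
matrix and of an `n₂ × n₃` matrix, the outputs are the entries of the product, and the group `Γ`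
acts on the three index sets.  The theorem bounds the number of product gates from below; sums
with arbitrary coefficients and arbitrary fan-in are free.

Let `Γ` be a finite perfect group in which every proper subgroup has index at least `s`, which acts
nontrivially on the first index set and trivially on `m₂` elements of the second and on `m₃`
elements of the third.  Then every `Γ`-symmetric circuit has at least `s m₂ m₃ / 2` product gates,
over every field.

Special cases (`m × m` matrices, `n = m ^ 2`).
* `Γ` the even permutations of `l ≥ 5` of the `m` indices, acting simultaneously on the three index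
  sets (`s = l`): at least `l (m - l) ^ 2 / 2` product gates.  So circuits which are symmetric under
  all even permutations of the indices have at least `(2 / 27 - o(1)) n ^ (3 / 2)` product gates,
  and a circuit of size `n ^ (1 + o(1))` can only be symmetric under alternating groups of degree
  `n ^ o(1)`.
* `Γ` the even permutations of the rows of the first matrix, `m ≥ 5`: at least `m ^ 3 / 2` product
  gates; the standard circuit has `m ^ 3` and is symmetric.

The circuits of the problem are the circuits in which every sum gate has two incoming wires; then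
`wt n n'` is the number of wires from `n'` to `n`.

Proof.  The mixed second derivatives at `0` of the polynomials at the nodes satisfy
`H = K H + s`, where `s` is given by the products of the gradients of the two inputs at the product
gates and `K` is a nilpotent matrix given by the weights and the constant terms (`JET`, `MAT`).
So the outputs give a bilinear algorithm with two products for each product gate, and by `EQV` and
`MAT` it is invariant under `Γ`.  Now use the theorem for bilinear algorithms
(`N580.SY.core`, `N580.SY.core_perm`).
-/

namespace Pool.Agent.Results.MP_e72dc0_lc.SymmetricCircuits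

open Pool.Agent Pool.Agent.N580.SY

/-- Each `g` in `Γ` extends to an automorphism of the circuit which moves the outputs accordingly:
the index sets are `Fin uᵢ ⊕ Fin mᵢ`, and `Γ` acts on them through `πᵢ` on `Fin uᵢ`, trivially on
`Fin mᵢ`. -/
def IsSymmetric {F : Type} [Field F] {Γ : Type} [Group Γ] {u₁ m₁ u₂ m₂ u₃ m₃ : ℕ}
    (π₁ : Γ →* Equiv.Perm (Fin u₁)) (π₂ : Γ →* Equiv.Perm (Fin u₂))
    (π₃ : Γ →* Equiv.Perm (Fin u₃)) {N : Type}
    (S : Circuit (Vars u₁ m₁ u₂ m₂ u₃ m₃) F N) (out : Ixs u₁ m₁ → Ixs u₃ m₃ → N) : Prop :=
  ∀ g : Γ, ∃ σ : Equiv.Perm N, IsAut S (actV (π₁ g) (π₂ g) (π₃ g)) σ ∧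
    ∀ a c, σ (out a c) = out (act (π₁ g) a) (act (π₃ g) c)

theorem result {F : Type} [Field F] {Γ : Type} [Group Γ] [Finite Γ] {s : ℕ}
    (hs : ∀ H : Subgroup Γ, H ≠ ⊤ → s ≤ H.index) (hperf : commutator Γ = ⊤)
    {u₁ m₁ u₂ m₂ u₃ m₃ : ℕ} (π₁ : Γ →* Equiv.Perm (Fin u₁)) (π₂ : Γ →* Equiv.Perm (Fin u₂))
    (π₃ : Γ →* Equiv.Perm (Fin u₃)) (hne : ∃ g, π₁ g ≠ 1) {N : Type} [Fintype N]
    (S : Circuit (Vars u₁ m₁ u₂ m₂ u₃ m₃) F N)
    (val : N → MvPolynomial (Vars u₁ m₁ u₂ m₂ u₃ m₃) F) (hval : IsValue S val)
    (out : Ixs u₁ m₁ → Ixs u₃ m₃ → N)
    (hout : ∀ a c, val (out a c) =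
      ∑ b, MvPolynomial.X (Sum.inl (a, b)) * MvPolynomial.X (Sum.inr (b, c)))
    (hsym : IsSymmetric π₁ π₂ π₃ S out) :
    s * (m₂ * m₃) ≤ 2 * Nat.card {n // S.lab n = Label.mul} :=
  circuit_bound N45.SYJet.jet N55.SY.eqv N222.SY.mat hs hperf π₁ π₂ π₃ hne S val hval out hout hsym
    _ rfl

end Pool.Agent.Results.MP_e72dc0_lc.SymmetricCircuits
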